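import Pool.Agent.N132.IX.StmDefs

/-!
# Calculus of correspondences (project IX, part L5a)
-/

open CategoryTheory AlgebraicGeometry

universe u v w

namespace Pool.Agent.N132.IX

open Module Filter Topology
open Pool.Agent.H914 Pool.Agent.H914.VarClass Pool.Agent.H914.VarClass.Obj
  Pool.Agent.H914.WeilCohomology Pool.Agent.W492.BB Pool.Agent.W550.Corr Pool.Agent.Y133.Half

variable {k : Type u} [Field k] {𝒱 : VarClass k} {ops : CycleOps 𝒱}
  {W : WeilCohomology.{u, v} ops} {X Y Z P Q V : 𝒱.Obj}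

section parts

variable (C : CycleTheory.{u, v, w} W)

/-- IX/L5a. The action of `cw`. -/
theorem act_cw (f : X ⟶ Y) (v : C.A X) (a : C.A Y) : C.act (cw C f v) a = v * C.pull f a := by
  have h1 : C.act (cw C f v) a = C.push (snd Y X) (C.push (Obj.lift f (𝟙 X)) v *
    C.pull (fst Y X) a) := rfl
  rw [h1, ← C.proj_right, ← C.push_comp, ← C.pull_comp, lift_fst, lift_snd, C.push_id]

/-- IX/L5a. -/
theorem extR_cw (f : X ⟶ Y) (v : C.A X) (c : C.A (V.prod Y)) :
    C.extR (cw C f v) V c = C.pull (snd V X) v * C.pull (prodMap (𝟙 V) f) c := by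
  have h1 : C.extR (cw C f v) V c = C.push (u13 V Y X) (C.pull (snd V (Y.prod X))
    (C.push (Obj.lift f (𝟙 X)) v) * C.pull (u12 V Y X) c) := rfl
  rw [h1, C.base_snd, ← C.proj_right, ← C.push_comp, ← C.pull_comp]
  have e1 : prodMap (𝟙 V) (Obj.lift f (𝟙 X)) ≫ u12 V Y X = prodMap (𝟙 V) f := by
    apply prod_ext <;> simp [u12]
  have e2 : prodMap (𝟙 V) (Obj.lift f (𝟙 X)) ≫ u13 V Y X = 𝟙 _ := by
    apply prod_ext <;> simp [u13]
  rw [e1, e2, C.push_id]

/-- IX/L5a. -/
theorem tens_cw (f : X ⟶ Y) (v : C.A X) (P : 𝒱.Obj) :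
    TH133.tens C.toTheoryData (cw C f v) (dg C.toTheoryData P) =
      cw C (prodMap f (𝟙 P)) (C.pull (fst X P) v) := by
  rw [TH133.tens_eq C.toTheoryData, pull_iso C.toTheoryData (TH133.mid Y P X P)
    (TH133.mid Y X P P) (TH133.mid_mid _ _ _ _) (TH133.mid_mid _ _ _ _)]
  have h1 : C.ext (cw C f v) (dg C.toTheoryData P) =
      C.push (prodMap (Obj.lift f (𝟙 X)) (Obj.lift (𝟙 P) (𝟙 P))) (C.ext v (1 : C.A P)) :=
    (TH133.push_ext C.toTheoryData (Obj.lift f (𝟙 X)) (Obj.lift (𝟙 P) (𝟙 P)) v 1).symm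
  have h2 : C.ext v (1 : C.A P) = C.pull (fst X P) v := by
    rw [TheoryData.ext, map_one, mul_one]
  have e1 : prodMap (Obj.lift f (𝟙 X)) (Obj.lift (𝟙 P) (𝟙 P)) ≫ TH133.mid Y X P P =
      Obj.lift (prodMap f (𝟙 P)) (𝟙 (X.prod P)) := by
    apply prod_ext
    · apply prod_ext <;> simp [TH133.mid, prodMap, Pool.Agent.W550.Corr.comp_lift]
    · apply prod_ext <;> simp [TH133.mid, prodMap, Pool.Agent.W550.Corr.comp_lift]
  rw [h1, ← C.push_comp, e1, h2]
  rfl

end parts

end Pool.Agent.N132.IX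

namespace Pool.Agent.N7.IX

open Module Filter Topology
open Pool.Agent.H914 Pool.Agent.H914.VarClass Pool.Agent.H914.VarClass.Obj
  Pool.Agent.H914.WeilCohomology Pool.Agent.W492.BB Pool.Agent.W550.Corr Pool.Agent.Y133.Half
  Pool.Agent.N132.IX

variable {k : Type u} [Field k] {𝒱 : VarClass k} {ops : CycleOps 𝒱}
  {W : WeilCohomology.{u, v} ops} {X Y Z P Q V P' Q' : 𝒱.Obj}

variable (C : CycleTheory.{u, v, w} W)

/-- the operator `id × (Γ × e)` on products -/
lemma extR_tens (Γ : C.A (Q.prod Q')) (e : C.A (P.prod P')) (c : C.A (V.prod Q)) (y : C.A P) :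
    C.extR (TH133.tens C.toTheoryData Γ e) V
      (C.pull (u12 V Q P) c * C.pull (snd V (Q.prod P) ≫ snd Q P) y) =
    C.pull (u12 V Q' P') (C.extR Γ V c) * C.pull (snd V (Q'.prod P') ≫ snd Q' P') (C.act e y) := by
  let κ : V.prod ((Q.prod P).prod (Q'.prod P')) ⟶ (V.prod (Q.prod Q')).prod (P.prod P') :=
    Obj.lift (prodMap (𝟙 V) (prodMap (fst Q P) (fst Q' P')))
      (snd V ((Q.prod P).prod (Q'.prod P')) ≫ prodMap (snd Q P) (snd Q' P'))
  let κ' : (V.prod (Q.prod Q')).prod (P.prod P') ⟶ V.prod ((Q.prod P).prod (Q'.prod P')) :=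
    Obj.lift (fst (V.prod (Q.prod Q')) (P.prod P') ≫ fst V (Q.prod Q'))
      (prodMap (snd V (Q.prod Q')) (𝟙 (P.prod P')) ≫ TH133.mid Q Q' P P')
  have k1 : κ ≫ κ' = 𝟙 _ := by
    apply prod_ext
    · simp [κ, κ', prodMap, Pool.Agent.W550.Corr.comp_lift, TH133.mid]
    · apply prod_ext
      · apply prod_ext <;> simp [κ, κ', prodMap, Pool.Agent.W550.Corr.comp_lift, TH133.mid]
      · apply prod_ext <;> simp [κ, κ', prodMap, Pool.Agent.W550.Corr.comp_lift, TH133.mid]
  have k2 : κ' ≫ κ = 𝟙 _ := by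
    apply prod_ext
    · apply prod_ext
      · simp [κ, κ', prodMap, Pool.Agent.W550.Corr.comp_lift, TH133.mid]
      · apply prod_ext <;> simp [κ, κ', prodMap, Pool.Agent.W550.Corr.comp_lift, TH133.mid]
    · apply prod_ext <;> simp [κ, κ', prodMap, Pool.Agent.W550.Corr.comp_lift, TH133.mid]
  have hR : C.pull (u12 V Q' P') (C.extR Γ V c) * C.pull (snd V (Q'.prod P') ≫ snd Q' P')
      (C.act e y) = C.push (u13 V (Q.prod P) (Q'.prod P'))
        (C.pull κ (C.ext (C.pull (snd V (Q.prod Q')) Γ * C.pull (u12 V Q Q') c)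
          (e * C.pull (fst P P') y))) := by
    have e1 : u13 V (Q.prod P) (Q'.prod P') = κ ≫ prodMap (u13 V Q Q') (snd P P') ≫ aI V Q' P' := by
      apply prod_ext
      · simp [κ, u13, aI, prodMap, Pool.Agent.W550.Corr.comp_lift]
      · apply prod_ext <;> simp [κ, u13, aI, prodMap, Pool.Agent.W550.Corr.comp_lift]
    have e2 : u12 V Q' P' = aJ V Q' P' ≫ fst (V.prod Q') P' := by
      apply prod_ext <;> simp [aJ, u12]
    have e3 : snd V (Q'.prod P') ≫ snd Q' P' = aJ V Q' P' ≫ snd (V.prod Q') P' := by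
      simp [aJ]
    rw [e1, ← push_model C.toTheoryData κ κ' k1 k2, C.push_comp, TH133.push_ext C.toTheoryData,
      ← pull_iso C.toTheoryData (aJ V Q' P') (aI V Q' P') aJ_aI aI_aJ, e2, e3, C.pull_comp,
      C.pull_comp, ← map_mul]
    rfl
  rw [hR]
  have h1 : C.extR (TH133.tens C.toTheoryData Γ e) V
      (C.pull (u12 V Q P) c * C.pull (snd V (Q.prod P) ≫ snd Q P) y) =
      C.push (u13 V (Q.prod P) (Q'.prod P')) (C.pull (snd V ((Q.prod P).prod (Q'.prod P')))
        (C.pull (prodMap (fst Q P) (fst Q' P')) Γ * C.pull (prodMap (snd Q P) (snd Q' P')) e) *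
        C.pull (u12 V (Q.prod P) (Q'.prod P'))
          (C.pull (u12 V Q P) c * C.pull (snd V (Q.prod P) ≫ snd Q P) y)) := rfl
  rw [h1]
  congr 1
  rw [TheoryData.ext, map_mul (C.pull κ), ← C.pull_comp, ← C.pull_comp,
    map_mul (C.pull (κ ≫ _)), map_mul (C.pull (κ ≫ _)), map_mul (C.pull (snd V _)),
    map_mul (C.pull (u12 V (Q.prod P) (Q'.prod P'))), ← C.pull_comp, ← C.pull_comp, ← C.pull_comp,
    ← C.pull_comp, ← C.pull_comp, ← C.pull_comp, ← C.pull_comp]
  have f1 : snd V ((Q.prod P).prod (Q'.prod P')) ≫ prodMap (fst Q P) (fst Q' P') =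
      (κ ≫ fst _ _) ≫ snd V (Q.prod Q') := by
    apply prod_ext <;> simp [κ, prodMap, Pool.Agent.W550.Corr.comp_lift]
  have f2 : snd V ((Q.prod P).prod (Q'.prod P')) ≫ prodMap (snd Q P) (snd Q' P') =
      κ ≫ snd _ _ := by
    apply prod_ext <;> simp [κ, prodMap, Pool.Agent.W550.Corr.comp_lift]
  have f3 : u12 V (Q.prod P) (Q'.prod P') ≫ u12 V Q P = (κ ≫ fst _ _) ≫ u12 V Q Q' := by
    apply prod_ext <;> simp [κ, u12, prodMap, Pool.Agent.W550.Corr.comp_lift]
  have f4 : u12 V (Q.prod P) (Q'.prod P') ≫ snd V (Q.prod P) ≫ snd Q P =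
      (κ ≫ snd _ _) ≫ fst P P' := by
    simp [κ, u12, prodMap, Pool.Agent.W550.Corr.comp_lift]
  rw [f1, f2, f3, f4]
  generalize C.pull _ Γ = a
  generalize C.pull _ e = b
  generalize C.pull _ c = c'
  generalize C.pull _ y = d
  rw [mul_assoc, mul_assoc, ← mul_assoc b c' d, C.mul_comm b c', mul_assoc]

end Pool.Agent.N7.IX

namespace Pool.Agent.N132.IX

open Module Filter Topology
open Pool.Agent.H914 Pool.Agent.H914.VarClass Pool.Agent.H914.VarClass.Obj
  Pool.Agent.H914.WeilCohomology Pool.Agent.W492.BB Pool.Agent.W550.Corr Pool.Agent.Y133.Half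

variable {k : Type u} [Field k] {𝒱 : VarClass k} {ops : CycleOps 𝒱}
  {W : WeilCohomology.{u, v} ops} {X Y Z P Q V : 𝒱.Obj}

section parts

variable (C : CycleTheory.{u, v, w} W)

/-- IX/L5a. -/
theorem slot (T : C.A (Q.prod Q)) {e : C.A (P.prod P)} {y : C.A P} (he : C.act e y = y) :
    C.comp (cw C (fst Q P) (C.pull (snd Q P) y)) (TH133.tens C.toTheoryData T e) =
      C.comp T (cw C (fst Q P) (C.pull (snd Q P) y)) := by
  have h1 : cw C (fst Q P) (C.pull (snd Q P) y) =
      C.pull (u12 Q Q P) (dg C.toTheoryData Q) * C.pull (snd Q (Q.prod P) ≫ snd Q P) y := by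
    have h2 := dg_comp C.toTheoryData (cw C (fst Q P) (C.pull (snd Q P) y))
    rw [comp_eq_extR C.toTheoryData, extR_cw, ← C.pull_comp, C.mul_comm] at h2
    exact h2.symm
  have h3 : C.comp (cw C (fst Q P) (C.pull (snd Q P) y)) (TH133.tens C.toTheoryData T e) =
      C.extR (TH133.tens C.toTheoryData T e) Q (cw C (fst Q P) (C.pull (snd Q P) y)) :=
    comp_eq_extR C.toTheoryData _ _
  have h4 : C.comp T (cw C (fst Q P) (C.pull (snd Q P) y)) =
      C.extR (cw C (fst Q P) (C.pull (snd Q P) y)) Q T := comp_eq_extR C.toTheoryData _ _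
  have h5 : C.extR T Q (dg C.toTheoryData Q) = T := by
    rw [← comp_eq_extR C.toTheoryData, dg_comp C.toTheoryData]
  rw [h3, h4, extR_cw, h1, Pool.Agent.N7.IX.extR_tens, he, h5, ← C.pull_comp, C.mul_comm]
  rfl

/-- IX/L7. The degree of a class. -/
theorem push_pull_degree (X Y : 𝒱.Obj) (x : C.A X) :
    C.push (snd X Y) (C.pull (fst X Y) x) = W.tr X (C.cl X x) • (1 : C.A Y) := by
  have h1 := DirectSum.IsInternal.submodule_iSup_eq_top (C.isTheory.isGradedRing.isInternal X)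
  have hz : x ∈ ⨆ i, C.gr X i := by rw [h1]; exact Submodule.mem_top
  refine Submodule.iSup_induction (C.gr X) (motive := fun x =>
    C.push (snd X Y) (C.pull (fst X Y) x) = W.tr X (C.cl X x) • (1 : C.A Y)) hz ?_ ?_ ?_
  · intro i x hx
    have hmem : C.push (snd X Y) (C.pull (fst X Y) x) ∈ C.gr Y (i - X.dim) := by
      have h2 := C.push_mem (δ := 1) (snd X Y) (C.pull_mem (δ := 1) (fst X Y) hx)
      have h3 : i + 1 * ((Y.dim : ℤ) - ((X.prod Y).dim : ℤ)) = i - X.dim := by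
        rw [dim_prod]
        push_cast
        ring
      rw [h3] at h2
      exact h2
    rcases lt_trichotomy i (X.dim : ℤ) with h | h | h
    · have h2 : C.gr Y (i - X.dim) = ⊥ := C.gr_neg (δ := 1) Y _ (by omega)
      rw [h2, Submodule.mem_bot] at hmem
      rw [hmem]
      rcases lt_or_ge i 0 with h0 | h0
      · have h3 : C.gr X i = ⊥ := C.gr_neg (δ := 1) X i h0
        rw [h3, Submodule.mem_bot] at hx
        rw [hx, map_zero, map_zero, zero_smul]
      · obtain ⟨j, rfl⟩ := Int.eq_ofNat_of_zero_le h0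
        have h4 := C.cl_mem hx
        rw [W.tr_eq_zero h4 (by omega), zero_smul]
    · rw [h, sub_self] at hmem
      obtain ⟨q, hq⟩ := C.gr_zero Y _ hmem
      have h2 : C.cl Y (C.push (snd X Y) (C.pull (fst X Y) x)) = W.tr X (C.cl X x) • (1 : W.H Y) := by
        rw [C.cl_push, C.cl_pull, push_snd']
      rw [hq, map_smul, map_one] at h2
      have h3 : (1 : W.H Y) ≠ 0 := by
        intro h4
        obtain ⟨z, hz⟩ := C.exists_point Y
        have h5 : C.cl Y z = 0 := by
          rw [← one_mul (C.cl Y z), h4, zero_mul]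
        rw [h5, map_zero] at hz
        exact zero_ne_one hz
      have h4 : (q - W.tr X (C.cl X x)) • (1 : W.H Y) = 0 := by
        rw [sub_smul, h2, sub_self]
      rcases smul_eq_zero.1 h4 with h5 | h5
      · rw [hq, sub_eq_zero.1 h5]
      · exact absurd h5 h3
    · rw [C.gr_top X i x hx h, map_zero, map_zero, map_zero, map_zero, zero_smul]
  · rw [map_zero, map_zero, map_zero, map_zero, zero_smul]
  · intro a b ha hb
    rw [map_add, map_add, map_add, map_add, add_smul, ha, hb]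

end parts

end Pool.Agent.N132.IX
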